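import Pool.Agent.Work.MP_e5a0e3_pr.Hedge.Main

open Pool.Agent.Work.MP_e5a0e3_pr

/-- For `d ≥ 4` the bidirectional `k`-neighbour graph on `ℤ^d` percolates once `k (k - 1) ≥ 4 d`.
In particular it percolates for `k = d ≥ 5`, so Q1 fails in every dimension `d ≥ 5`. -/
theorem Pool.Agent.Results.MP_e5a0e3_pr.PercolatesFour.result :
    ∀ d k : ℕ, 4 ≤ d → k ≤ 2 * d → 4 * d ≤ k * (k - 1) → 0 < theta k d :=
  fun _ _ hd hk hdk => Hedge.theta_pos4 hd hk hdk
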